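import Mathlib

/-!
# Achievement sets are regularly closed or nowhere dense

For an absolutely summable sequence `v` of vectors of `ℝ^d` (in particular of the plane), the set of
all subsums is either the closure of its interior or nowhere dense.

Idea of the proof. If `E(v)` has an interior point then so has the achievement set of every tail of
`v`, because `E(v)` is the union of finitely many translates of it. Every point of `E(v)` lies in
such a translate contained in `E(v)`, and the diameters of the translates tend to zero.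
-/

set_option autoImplicit false

open Filter Topology Set

namespace Pool.Agent.Results.MP_69f3e4_an.RegularlyClosed

/-- The achievement set of a sequence of vectors of `ℝ^d`: the set of all subsums
`∑ ε_n v_n`, where `ε_n ∈ {0, 1}` for all `n`. -/
def achievementSet {d : ℕ} (v : ℕ → EuclideanSpace ℝ (Fin d)) : Set (EuclideanSpace ℝ (Fin d)) :=
  {x | ∃ ε : ℕ → ℝ, (∀ n, ε n = 0 ∨ ε n = 1) ∧ x = ∑' n, ε n • v n}

section proof

variable {d : ℕ}

lemma norm_term_le {v : ℕ → EuclideanSpace ℝ (Fin d)} {ε : ℕ → ℝ} (hε : ∀ n, ε n = 0 ∨ ε n = 1)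
    (n : ℕ) : ‖ε n • v n‖ ≤ ‖v n‖ := by
  rcases hε n with h | h <;> simp [h]

lemma summable_term {v : ℕ → EuclideanSpace ℝ (Fin d)} (hv : Summable fun n => ‖v n‖) {ε : ℕ → ℝ}
    (hε : ∀ n, ε n = 0 ∨ ε n = 1) : Summable fun n => ε n • v n :=
  Summable.of_norm_bounded hv (norm_term_le hε)

lemma eq_range (v : ℕ → EuclideanSpace ℝ (Fin d)) :
    achievementSet v = range (fun b : ℕ → Bool => ∑' n, (if b n then (1:ℝ) else 0) • v n) := by
  ext x
  constructor
  · rintro ⟨ε, hε, rfl⟩
    refine ⟨fun n => decide (ε n = 1), ?_⟩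
    refine tsum_congr fun n => ?_
    rcases hε n with h | h <;> simp [h]
  · rintro ⟨b, rfl⟩
    refine ⟨fun n => if b n then 1 else 0, fun n => ?_, rfl⟩
    cases b n <;> simp

lemma isCompact_achievementSet {v : ℕ → EuclideanSpace ℝ (Fin d)}
    (hv : Summable fun n => ‖v n‖) : IsCompact (achievementSet v) := by
  rw [eq_range]
  refine isCompact_range ?_
  refine continuous_tsum (u := fun n => ‖v n‖) (fun n => ?_) hv (fun n b => ?_)
  · have h : Continuous fun b : Bool => (if b then (1:ℝ) else 0) • v n := continuous_of_discreteTopology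
    exact h.comp (continuous_apply n)
  · cases b n <;> simp

/-- Splitting off the first term. -/
lemma succ_union {v : ℕ → EuclideanSpace ℝ (Fin d)} (hv : Summable fun n => ‖v n‖) :
    achievementSet v = achievementSet (fun n => v (n + 1)) ∪
      (fun x => v 0 + x) '' achievementSet (fun n => v (n + 1)) := by
  ext x
  constructor
  · rintro ⟨ε, hε, rfl⟩
    have hs := (summable_term hv hε).tsum_eq_zero_add
    rcases hε 0 with h | h
    · left
      refine ⟨fun n => ε (n + 1), fun n => hε (n + 1), ?_⟩
      rw [hs, h]; simp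
    · right
      refine ⟨∑' n, ε (n + 1) • v (n + 1), ⟨fun n => ε (n + 1), fun n => hε (n + 1), rfl⟩, ?_⟩
      simp only
      rw [hs, h, one_smul]
  · rintro (⟨ε, hε, rfl⟩ | ⟨y, ⟨ε, hε, rfl⟩, rfl⟩)
    · have hδ : ∀ n, (fun n : ℕ => Nat.casesOn n (0:ℝ) ε : ℕ → ℝ) n = 0 ∨
          (fun n : ℕ => Nat.casesOn n (0:ℝ) ε : ℕ → ℝ) n = 1 := by
        intro n
        cases n with
        | zero => left; rfl
        | succ m => exact hε m
      refine ⟨fun n : ℕ => Nat.casesOn n (0:ℝ) ε, hδ, ?_⟩
      rw [(summable_term hv hδ).tsum_eq_zero_add]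
      simp
    · have hδ : ∀ n, (fun n : ℕ => Nat.casesOn n (1:ℝ) ε : ℕ → ℝ) n = 0 ∨
          (fun n : ℕ => Nat.casesOn n (1:ℝ) ε : ℕ → ℝ) n = 1 := by
        intro n
        cases n with
        | zero => right; rfl
        | succ m => exact hε m
      refine ⟨fun n : ℕ => Nat.casesOn n (1:ℝ) ε, hδ, ?_⟩
      rw [(summable_term hv hδ).tsum_eq_zero_add]
      simp

lemma interior_tail {v : ℕ → EuclideanSpace ℝ (Fin d)} (hv : Summable fun n => ‖v n‖)
    (h : (interior (achievementSet v)).Nonempty) :
    (interior (achievementSet (fun n => v (n + 1)))).Nonempty := by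
  by_contra hcon
  rw [not_nonempty_iff_eq_empty] at hcon
  have hv1 : Summable fun n => ‖v (n + 1)‖ := (summable_nat_add_iff 1).2 hv
  have hc : IsClosed (achievementSet (fun n => v (n + 1))) := (isCompact_achievementSet hv1).isClosed
  have him : interior ((fun x => v 0 + x) '' achievementSet (fun n => v (n + 1))) = ∅ := by
    have := (Homeomorph.addLeft (v 0)).image_interior (achievementSet (fun n => v (n + 1)))
    rw [hcon, image_empty] at this
    exact this.symm
  rw [succ_union hv, interior_union_isClosed_of_interior_empty hc him, hcon] at h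
  simp at h

lemma interior_tail_n {v : ℕ → EuclideanSpace ℝ (Fin d)} (hv : Summable fun n => ‖v n‖)
    (h : (interior (achievementSet v)).Nonempty) (k : ℕ) :
    (interior (achievementSet (fun n => v (n + k)))).Nonempty := by
  induction k with
  | zero => simpa using h
  | succ k ih =>
    have := interior_tail (v := fun n => v (n + k)) ((summable_nat_add_iff k).2 hv) ih
    have he : (fun n => v (n + (k + 1))) = fun n => v (n + 1 + k) := by
      funext n
      rw [show n + (k + 1) = n + 1 + k by ring]
    rw [he]; exact this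

/-- A translate of the achievement set of a tail lies in the achievement set. -/
lemma translate_subset {v : ℕ → EuclideanSpace ℝ (Fin d)} (hv : Summable fun n => ‖v n‖)
    {ε : ℕ → ℝ} (hε : ∀ n, ε n = 0 ∨ ε n = 1) (k : ℕ) {z : EuclideanSpace ℝ (Fin d)}
    (hz : z ∈ achievementSet (fun n => v (n + k))) :
    (∑ i ∈ Finset.range k, ε i • v i) + z ∈ achievementSet v := by
  obtain ⟨δ, hδ, rfl⟩ := hz
  set η : ℕ → ℝ := fun n => if n < k then ε n else δ (n - k) with hη
  have hη' : ∀ n, η n = 0 ∨ η n = 1 := by
    intro n
    simp only [hη]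
    split_ifs
    · exact hε n
    · exact hδ _
  refine ⟨η, hη', ?_⟩
  rw [← (summable_term hv hη').sum_add_tsum_nat_add k]
  congr 1
  · refine Finset.sum_congr rfl fun i hi => ?_
    simp [hη, Finset.mem_range.1 hi]
  · refine tsum_congr fun n => ?_
    simp [hη]

lemma norm_le_tail {v : ℕ → EuclideanSpace ℝ (Fin d)} (hv : Summable fun n => ‖v n‖) (k : ℕ)
    {z : EuclideanSpace ℝ (Fin d)} (hz : z ∈ achievementSet (fun n => v (n + k))) :
    ‖z‖ ≤ ∑' n, ‖v (n + k)‖ := by
  obtain ⟨δ, hδ, rfl⟩ := hz
  exact tsum_of_norm_bounded ((summable_nat_add_iff k).2 hv).hasSum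
    (norm_term_le (v := fun n => v (n + k)) hδ)

lemma subset_closure_interior {v : ℕ → EuclideanSpace ℝ (Fin d)} (hv : Summable fun n => ‖v n‖)
    (h : (interior (achievementSet v)).Nonempty) :
    achievementSet v ⊆ closure (interior (achievementSet v)) := by
  rintro x ⟨ε, hε, rfl⟩
  rw [Metric.mem_closure_iff]
  intro r hr
  have ht : Tendsto (fun k => ∑' n, ‖v (n + k)‖) atTop (𝓝 0) := tendsto_sum_nat_add fun n => ‖v n‖
  obtain ⟨k, hk⟩ := (ht.eventually (gt_mem_nhds (show (0:ℝ) < r / 2 by linarith))).exists
  obtain ⟨z, hz⟩ := interior_tail_n hv h k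
  refine ⟨(∑ i ∈ Finset.range k, ε i • v i) + z, ?_, ?_⟩
  · have hsub : (fun y => (∑ i ∈ Finset.range k, ε i • v i) + y) ''
        interior (achievementSet (fun n => v (n + k))) ⊆ interior (achievementSet v) := by
      apply interior_maximal
      · rintro _ ⟨y, hy, rfl⟩
        exact translate_subset hv hε k (interior_subset hy)
      · exact (Homeomorph.addLeft (∑ i ∈ Finset.range k, ε i • v i)).isOpenMap _ isOpen_interior
    exact hsub ⟨z, hz, rfl⟩
  · rw [← (summable_term hv hε).sum_add_tsum_nat_add k, dist_add_left, dist_eq_norm]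
    have h1 := norm_le_tail hv k (interior_subset hz)
    have h2 := norm_le_tail hv k (z := ∑' i, ε (i + k) • v (i + k))
      ⟨fun n => ε (n + k), fun n => hε (n + k), rfl⟩
    calc ‖(∑' i, ε (i + k) • v (i + k)) - z‖ ≤ ‖∑' i, ε (i + k) • v (i + k)‖ + ‖z‖ := norm_sub_le _ _
      _ < r := by linarith

end proof

/-- For every dimension `d` (in particular for the plane, `d = 2`) and every absolutely summable
sequence `v` of vectors of `ℝ^d`, the achievement set `E(v)` is regularly closed, that is, it is the
closure of its interior, or it is nowhere dense. -/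
theorem result (d : ℕ) (v : ℕ → EuclideanSpace ℝ (Fin d)) (hv : Summable fun n => ‖v n‖) :
    achievementSet v = closure (interior (achievementSet v)) ∨
      IsNowhereDense (achievementSet v) := by
  have hc := (isCompact_achievementSet hv).isClosed
  by_cases h : (interior (achievementSet v)).Nonempty
  · left
    exact Subset.antisymm (subset_closure_interior hv h)
      (closure_minimal interior_subset hc)
  · right
    rw [IsNowhereDense, hc.closure_eq]
    exact not_nonempty_iff_eq_empty.1 h

end Pool.Agent.Results.MP_69f3e4_an.RegularlyClosed
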